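import Pool.Agent.Helper96.SE.Stmts

/-! # Module LIT: the chosen literals are true -/

set_option autoImplicit false

namespace Pool.Agent.Helper96.SE

open Pool.Agent.Helper31.BC (dst tourLen Placement Pair Ineq Refutes PCl chs chf xv inn sel col vr)
open Pool.Agent.Helper38.MR (Edge Graph clq mpt Gate Simple out trv)
open Pool.Agent.Helper52.Grid

section

theorem lit_in {k q l : ℕ} (σ : Fin k → Fin q) (χ : Fin (k * q) → Fin l) {i : ℕ}
    (h : i < k * q) : asg σ χ i = inn σ i := by
  unfold asg
  rw [if_pos h]

theorem lit_vr {k q l : ℕ} (σ : Fin k → Fin q) (χ : Fin (k * q) → Fin l) {v c : ℕ}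
    (hv : v < k * q) (hc : c < l) : asg σ χ (vr (k * q) l v c) = decide (col χ v = c) := by
  have hl : 0 < l := by omega
  have h1 : ¬ vr (k * q) l v c < k * q := by
    unfold vr
    omega
  have h3 : v * l + c < k * q * l := by
    calc v * l + c < v * l + l := by omega
      _ = (v + 1) * l := by ring
      _ ≤ k * q * l := Nat.mul_le_mul_right _ hv
  have h2 : vr (k * q) l v c < k * q + k * q * l := by
    unfold vr
    omega
  unfold asg
  rw [if_neg h1, if_pos h2]
  have h4 : vr (k * q) l v c - k * q = c + l * v := by
    unfold vr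
    rw [Nat.add_sub_cancel_left, Nat.mul_comm]
    omega
  rw [h4, Nat.add_mul_div_left _ _ hl, Nat.div_eq_of_lt hc, Nat.add_mul_mod_self_left,
    Nat.mod_eq_of_lt hc, Nat.zero_add]

theorem lit_dm {m u v : ℕ} (hv : v < m) : (u * m + v) / m = u ∧ (u * m + v) % m = v := by
  have hm : 0 < m := by omega
  have h4 : u * m + v = v + m * u := by
    rw [Nat.mul_comm]
    omega
  rw [h4, Nat.add_mul_div_left _ _ hm, Nat.div_eq_of_lt hv, Nat.add_mul_mod_self_left,
    Nat.mod_eq_of_lt hv, Nat.zero_add]
  exact ⟨rfl, rfl⟩

theorem lit_wr {k q l : ℕ} (σ : Fin k → Fin q) (χ : Fin (k * q) → Fin l) {u v : ℕ}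
    (hv : v < k * q) : asg σ χ (wr (k * q) l u v) = decide (col χ u = col χ v) := by
  have h1 : ¬ wr (k * q) l u v < k * q := by
    unfold wr
    omega
  have h2 : ¬ wr (k * q) l u v < k * q + k * q * l := by
    unfold wr
    omega
  have h4 : wr (k * q) l u v - (k * q + k * q * l) = 2 * (u * (k * q) + v) := by
    unfold wr
    omega
  have h5 : 2 * (u * (k * q) + v) % 2 = 0 := by omega
  have h6 : 2 * (u * (k * q) + v) / 2 = u * (k * q) + v := by omega
  unfold asg
  rw [if_neg h1, if_neg h2, h4, if_pos h5, h6, (lit_dm hv).1, (lit_dm hv).2]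

theorem lit_xr {k q l : ℕ} (σ : Fin k → Fin q) (χ : Fin (k * q) → Fin l) {u v : ℕ}
    (hv : v < k * q) : asg σ χ (xr (k * q) l u v) = (inn σ u && inn σ v) := by
  have h1 : ¬ xr (k * q) l u v < k * q := by
    unfold xr
    omega
  have h2 : ¬ xr (k * q) l u v < k * q + k * q * l := by
    unfold xr
    omega
  have h4 : xr (k * q) l u v - (k * q + k * q * l) = 2 * (u * (k * q) + v) + 1 := by
    unfold xr
    omega
  have h5 : ¬ (2 * (u * (k * q) + v) + 1) % 2 = 0 := by omega
  have h6 : (2 * (u * (k * q) + v) + 1) / 2 = u * (k * q) + v := by omega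
  unfold asg
  rw [if_neg h1, if_neg h2, h4, if_neg h5, h6, (lit_dm hv).1, (lit_dm hv).2]

theorem lit_col {m l : ℕ} (χ : Fin m → Fin l) {v : ℕ} (h : v < m) : col χ v = χ ⟨v, h⟩ := by
  unfold col
  rw [dif_pos h]

end

theorem st_LIT : ST_LIT := by
  intro k q l σ χ x hx y hy
  unfold pcc at hx
  rw [List.mem_append] at hx
  rcases hx with hx | hx
  · unfold pA at hx
    rw [List.mem_append] at hx
    rcases hx with hx | hx
    · rw [List.mem_map] at hx
      obtain ⟨i, hi, rfl⟩ := hx
      rw [List.mem_range] at hi
      have hs : sel σ i = σ ⟨i, hi⟩ := by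
        unfold sel
        rw [dif_pos hi]
      simp only [hs] at hy
      have hlt : (σ ⟨i, hi⟩ : ℕ) < q := (σ ⟨i, hi⟩).2
      rw [List.getElem?_map, List.getElem?_range hlt, Option.map_some, Option.some.injEq] at hy
      rw [← hy]
      simp only
      have hidx : (finProdFinEquiv ((⟨i, hi⟩ : Fin k), σ ⟨i, hi⟩) : Fin (k * q)).1
          = (σ ⟨i, hi⟩ : ℕ) + q * i := rfl
      have hlt2 : (σ ⟨i, hi⟩ : ℕ) + q * i < k * q := by
        rw [← hidx]
        exact (finProdFinEquiv ((⟨i, hi⟩ : Fin k), σ ⟨i, hi⟩) : Fin (k * q)).2
      rw [lit_in σ χ hlt2]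
      unfold inn
      rw [dif_pos hlt2]
      apply decide_eq_true
      unfold trv
      rw [Finset.mem_image]
      exact ⟨⟨i, hi⟩, Finset.mem_univ _, Fin.ext hidx⟩
    · rw [List.mem_flatMap] at hx
      obtain ⟨u, hu, hx⟩ := hx
      rw [List.mem_flatMap] at hx
      obtain ⟨v, hv, hx⟩ := hx
      rw [List.mem_range] at hu hv
      by_cases huv : u < v
      · rw [if_pos huv, List.mem_singleton] at hx
        subst hx
        by_cases h1 : inn σ u = false
        · simp only [if_pos h1] at hy
          rw [List.getElem?_cons_zero, Option.some.injEq] at hy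
          rw [← hy]
          simp only
          rw [lit_in σ χ hu, h1]
        · by_cases h2 : inn σ v = false
          · simp only [if_neg h1, if_pos h2] at hy
            rw [List.getElem?_cons_succ, List.getElem?_cons_zero, Option.some.injEq] at hy
            rw [← hy]
            simp only
            rw [lit_in σ χ hv, h2]
          · simp only [if_neg h1, if_neg h2] at hy
            rw [List.getElem?_cons_succ, List.getElem?_cons_succ, List.getElem?_cons_zero,
              Option.some.injEq] at hy
            rw [← hy]
            simp only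
            rw [lit_xr σ χ hv, Bool.eq_true_of_not_eq_false h1, Bool.eq_true_of_not_eq_false h2]
            rfl
      · rw [if_neg huv] at hx
        exact absurd hx List.not_mem_nil
  · unfold pB at hx
    rw [List.mem_append] at hx
    rcases hx with hx | hx
    · rw [List.mem_map] at hx
      obtain ⟨v, hv, rfl⟩ := hx
      rw [List.mem_range] at hv
      have hc := lit_col χ hv
      have hlt : col χ v < l := by
        rw [hc]
        exact (χ ⟨v, hv⟩).2
      simp only at hy
      rw [List.getElem?_map, List.getElem?_range hlt, Option.map_some, Option.some.injEq] at hy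
      rw [← hy]
      simp only
      rw [lit_vr σ χ hv hlt]
      exact decide_eq_true rfl
    · rw [List.mem_flatMap] at hx
      obtain ⟨u, hu, hx⟩ := hx
      rw [List.mem_flatMap] at hx
      obtain ⟨v, hv, hx⟩ := hx
      rw [List.mem_flatMap] at hx
      obtain ⟨c, hc, hx⟩ := hx
      rw [List.mem_range] at hu hv hc
      by_cases huv : u < v
      · rw [if_pos huv, List.mem_singleton] at hx
        subst hx
        by_cases h1 : col χ u = c
        · by_cases h2 : col χ v = c
          · simp only [h1, h2, ne_eq, not_true_eq_false, if_false] at hy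
            rw [List.getElem?_cons_succ, List.getElem?_cons_succ, List.getElem?_cons_zero,
              Option.some.injEq] at hy
            rw [← hy]
            simp only
            rw [lit_wr σ χ hv]
            apply decide_eq_true
            rw [h1, h2]
          · simp only [h1, h2, ne_eq, not_true_eq_false, if_false, not_false_eq_true, if_true] at hy
            rw [List.getElem?_cons_succ, List.getElem?_cons_zero, Option.some.injEq] at hy
            rw [← hy]
            simp only
            rw [lit_vr σ χ hv hc]
            exact decide_eq_false h2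
        · simp only [h1, ne_eq, not_false_eq_true, if_true] at hy
          rw [List.getElem?_cons_zero, Option.some.injEq] at hy
          rw [← hy]
          simp only
          rw [lit_vr σ χ hu hc]
          exact decide_eq_false h1
      · rw [if_neg huv] at hx
        exact absurd hx List.not_mem_nil

end Pool.Agent.Helper96.SE
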