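import Pool.Agent.Helper96.SE.Stmts

set_option autoImplicit false

/-! Module NUM: the numerical part of the lower bound on branch-and-cut proofs. -/

namespace Pool.Agent.Helper96.SE

theorem num_ev : ∀ᶠ u : ℝ in Filter.atTop, 1 ≤ u ∧ 25 + 2640 * Real.log u < u / 2 := by
  have h1 := Real.isLittleO_log_id_atTop.bound (show (0 : ℝ) < 1 / 10560 by norm_num)
  filter_upwards [h1, Filter.eventually_ge_atTop (1 : ℝ), Filter.eventually_gt_atTop (100 : ℝ)]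
    with u hu h1 h100
  refine ⟨h1, ?_⟩
  have h2 : Real.log u ≤ 1 / 10560 * u := by
    have h3 : ‖id u‖ = u := by simp [abs_of_pos (lt_of_lt_of_le one_pos h1)]
    rw [h3] at hu
    exact le_trans (le_abs_self _) hu
  linarith

theorem num_ev2 : ∃ s₀ : ℕ, ∀ s : ℕ, s₀ ≤ s → 41 ≤ s ∧ ∃ u : ℝ, 1 ≤ u ∧ u ^ 15 = s ∧
    25 + 2640 * Real.log u < u / 2 := by
  have h1 : Filter.Tendsto (fun s : ℕ => ((s : ℝ)) ^ (1 / 15 : ℝ)) Filter.atTop Filter.atTop :=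
    (tendsto_rpow_atTop (by norm_num : (0 : ℝ) < 1 / 15)).comp tendsto_natCast_atTop_atTop
  have h2 := h1.eventually num_ev
  obtain ⟨s₀, hs₀⟩ := Filter.eventually_atTop.1 (h2.and (Filter.eventually_ge_atTop 41))
  refine ⟨s₀, fun s hs => ?_⟩
  obtain ⟨⟨h3, h4⟩, h5⟩ := hs₀ s hs
  refine ⟨h5, (s : ℝ) ^ (1 / 15 : ℝ), h3, ?_, h4⟩
  rw [← Real.rpow_natCast, ← Real.rpow_mul (Nat.cast_nonneg s)]
  norm_num

theorem num_log (t : ℕ) (y : ℝ) (hy : 0 ≤ y) (ht : (t : ℝ) < Real.exp y) :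
    (Nat.log 2 t : ℝ) ≤ 2 * y := by
  have hl2 : (0.5 : ℝ) < Real.log 2 := by
    have := Real.log_two_gt_d9
    linarith
  rcases Nat.eq_zero_or_pos t with h0 | h0
  · subst h0
    simp only [Nat.log_zero_right, Nat.cast_zero]
    linarith
  · have h1 : 2 ^ Nat.log 2 t ≤ t := Nat.pow_log_le_self 2 (Nat.pos_iff_ne_zero.1 h0)
    have h2 : ((2 : ℝ) ^ Nat.log 2 t) ≤ t := by exact_mod_cast h1
    have h3 : (Nat.log 2 t : ℝ) * Real.log 2 < y := by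
      rw [← Real.log_pow, Real.log_lt_iff_lt_exp (by positivity)]
      exact lt_of_le_of_lt h2 ht
    have h4 : (0 : ℝ) ≤ (Nat.log 2 t : ℝ) := Nat.cast_nonneg _
    nlinarith

theorem num_base (s : ℕ) (hs : 41 ≤ s) : (4 * s ^ 2 + 1) * (8 * s) + 1 ≤ s ^ 4 := by
  have h1 : 41 * s ^ 3 ≤ s ^ 4 := by
    calc 41 * s ^ 3 ≤ s * s ^ 3 := Nat.mul_le_mul_right _ hs
      _ = s ^ 4 := by ring
  have h2 : s ≤ s ^ 3 := Nat.le_self_pow (by norm_num) s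
  have h3 : 1 ≤ s ^ 3 := Nat.one_le_pow _ _ (by omega)
  have h4 : (4 * s ^ 2 + 1) * (8 * s) + 1 = 32 * s ^ 3 + 8 * s + 1 := by ring
  omega

theorem num_exp3 : (14 : ℝ) < Real.exp 3 := by
  have h1 := Real.exp_one_gt_d9
  have h2 : Real.exp 3 = Real.exp 1 ^ 3 := by
    rw [← Real.exp_nat_mul]
    norm_num
  rw [h2]
  have h3 : (2.5 : ℝ) ^ 3 ≤ Real.exp 1 ^ 3 := pow_le_pow_left₀ (by norm_num) (by linarith) 3
  refine lt_of_lt_of_le ?_ h3
  norm_num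

theorem st_NUM : ST_NUM := by
  obtain ⟨s₀, hs₀⟩ := num_ev2
  refine ⟨s₀, fun s hs n hn t h => ?_⟩
  obtain ⟨h41, u, hu1, hu15, hu⟩ := hs₀ s hs
  by_contra hlt
  have hlt : (t : ℝ) < Real.exp ((n : ℝ) ^ (1 / 15 : ℝ)) := lt_of_not_ge hlt
  have hu0 : (0 : ℝ) < u := lt_of_lt_of_le one_pos hu1
  have hlu : 0 ≤ Real.log u := Real.log_nonneg hu1
  have hu14 : (1 : ℝ) ≤ u ^ 14 := one_le_pow₀ hu1
  -- the exponent
  have hy0 : 0 ≤ (n : ℝ) ^ (1 / 15 : ℝ) := Real.rpow_nonneg (Nat.cast_nonneg n) _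
  have hy : (n : ℝ) ^ (1 / 15 : ℝ) ≤ 22 * u ^ 14 := by
    have h1 : (n : ℝ) ≤ (22 * u ^ 14) ^ (15 : ℕ) := by
      have h2 : (n : ℝ) ≤ 10 ^ 20 * (s : ℝ) ^ 14 := by exact_mod_cast hn
      have h3 : (22 * u ^ 14) ^ (15 : ℕ) = 22 ^ 15 * (s : ℝ) ^ 14 := by
        rw [← hu15]
        ring
      rw [h3]
      have h4 : (0 : ℝ) ≤ (s : ℝ) ^ 14 := by positivity
      nlinarith
    calc (n : ℝ) ^ (1 / 15 : ℝ) ≤ ((22 * u ^ 14) ^ (15 : ℕ)) ^ (1 / 15 : ℝ) :=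
          Real.rpow_le_rpow (Nat.cast_nonneg n) h1 (by norm_num)
      _ = 22 * u ^ 14 := by
          rw [← Real.rpow_natCast, ← Real.rpow_mul (by positivity)]
          norm_num
  have hL := num_log t _ hy0 hlt
  have hls : Real.log (s : ℝ) = 15 * Real.log u := by
    rw [← hu15, Real.log_pow]
    norm_num
  have hspos : (0 : ℝ) < (s : ℝ) := by
    rw [← hu15]
    positivity
  -- the power
  have hP : ((((4 * s ^ 2 + 1) * (8 * s) + 1) ^ Nat.log 2 t : ℕ) : ℝ) ≤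
      Real.exp (2640 * Real.log u * u ^ 14) := by
    have h1 : ((((4 * s ^ 2 + 1) * (8 * s) + 1) ^ Nat.log 2 t : ℕ) : ℝ) ≤
        ((s : ℝ) ^ 4) ^ Nat.log 2 t := by
      have := Nat.pow_le_pow_left (num_base s h41) (Nat.log 2 t)
      exact_mod_cast this
    refine h1.trans ?_
    rw [← Real.log_le_iff_le_exp (by positivity), Real.log_pow, Real.log_pow, hls]
    have h2 : (Nat.log 2 t : ℝ) ≤ 44 * u ^ 14 := by linarith
    have h3 : (Nat.log 2 t : ℝ) * (((4 : ℕ) : ℝ) * (15 * Real.log u)) =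
        (Nat.log 2 t : ℝ) * (60 * Real.log u) := by
      push_cast
      ring
    rw [h3]
    calc (Nat.log 2 t : ℝ) * (60 * Real.log u) ≤ (44 * u ^ 14) * (60 * Real.log u) :=
          mul_le_mul_of_nonneg_right h2 (by positivity)
      _ = 2640 * Real.log u * u ^ 14 := by ring
  have ht : (t : ℝ) ≤ Real.exp (22 * u ^ 14) := hlt.le.trans (Real.exp_le_exp.2 hy)
  have hR : (t : ℝ) * ((((4 * s ^ 2 + 1) * (8 * s) + 1) ^ Nat.log 2 t : ℕ) : ℝ) ≤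
      Real.exp (22 * u ^ 14 + 2640 * Real.log u * u ^ 14) := by
    rw [Real.exp_add]
    exact mul_le_mul ht hP (Nat.cast_nonneg _) (Real.exp_pos _).le
  have hone : (1 : ℝ) ≤ Real.exp (22 * u ^ 14 + 2640 * Real.log u * u ^ 14) :=
    Real.one_le_exp (by positivity)
  have hmain : (2 : ℝ) ^ s ≤
      12 * ((t : ℝ) * ((((4 * s ^ 2 + 1) * (8 * s) + 1) ^ Nat.log 2 t : ℕ) : ℝ)) + 2 := by
    have h1 : ((2 ^ s : ℕ) : ℝ) ≤
        ((12 * t * ((4 * s ^ 2 + 1) * (8 * s) + 1) ^ Nat.log 2 t + 2 : ℕ) : ℝ) :=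
      Nat.cast_le.2 h
    have h2 : ((12 * t * ((4 * s ^ 2 + 1) * (8 * s) + 1) ^ Nat.log 2 t + 2 : ℕ) : ℝ) =
        12 * ((t : ℝ) * ((((4 * s ^ 2 + 1) * (8 * s) + 1) ^ Nat.log 2 t : ℕ) : ℝ)) + 2 := by
      rw [Nat.cast_add, Nat.cast_mul, Nat.cast_mul]
      push_cast
      ring
    rw [h2] at h1
    have h3 : ((2 ^ s : ℕ) : ℝ) = (2 : ℝ) ^ s := by push_cast; rfl
    rw [h3] at h1
    exact h1
  have hup : (2 : ℝ) ^ s < Real.exp (3 + (22 * u ^ 14 + 2640 * Real.log u * u ^ 14)) := by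
    rw [Real.exp_add]
    have h1 : (14 : ℝ) * Real.exp (22 * u ^ 14 + 2640 * Real.log u * u ^ 14) <
        Real.exp 3 * Real.exp (22 * u ^ 14 + 2640 * Real.log u * u ^ 14) :=
      mul_lt_mul_of_pos_right num_exp3 (Real.exp_pos _)
    linarith
  have hlow : Real.exp (u ^ 15 / 2) ≤ (2 : ℝ) ^ s := by
    rw [← Real.le_log_iff_exp_le (by positivity), Real.log_pow, ← hu15]
    have := Real.log_two_gt_d9
    have h5 : (0 : ℝ) ≤ u ^ 15 := by positivity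
    nlinarith
  have hfin := Real.exp_lt_exp.1 (lt_of_le_of_lt hlow hup)
  have h6 : u ^ 15 / 2 = u ^ 14 * (u / 2) := by ring
  have h7 : 3 + (22 * u ^ 14 + 2640 * Real.log u * u ^ 14) ≤
      u ^ 14 * (25 + 2640 * Real.log u) := by nlinarith
  have h8 : u ^ 14 * (25 + 2640 * Real.log u) ≤ u ^ 14 * (u / 2) :=
    mul_le_mul_of_nonneg_left hu.le (by positivity)
  linarith

end Pool.Agent.Helper96.SE
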