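import Pool.Agent.Helper96.SE.Stmts2
import Pool.Agent.Helper26.SE.SPL

/-! # Module SPL2: the split, with a set of edges which are always used -/

set_option autoImplicit false

namespace Pool.Agent.Helper96.SE

open Pool.Agent.Helper31.BC (dst tourLen Placement Pair Ineq Refutes PCl chs chf xv inn sel col vr
  PChoice spl_rows spl_zero)
open Pool.Agent.Helper38.MR (Edge Graph clq mpt Gate Simple out trv)
open Pool.Agent.Helper52.Grid
open Pool.Agent.Helper68.LP (pert dbl ucost scale Costs padded sc)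

/-- an edge which is always used -/
theorem spl2_used {n : ℕ} (HU VU : ℕ → ℕ → Bool) (p : Fin n → Pt) (e : Pair n) (m : Pt × Pt)
    (he : (p e.1.1 = m.1 ∧ p e.1.2 = m.2) ∨ (p e.1.1 = m.2 ∧ p e.1.2 = m.1))
    (hm : (m.2 = (m.1.1 + 1, m.1.2) ∧ HU m.1.1 m.1.2 = true) ∨
      (m.2 = (m.1.1, m.1.2 + 1) ∧ VU m.1.1 m.1.2 = true)) :
    xb HU VU p e = 1 := by
  obtain ⟨⟨x, y⟩, m2⟩ := m
  rcases hm with ⟨h1, h2⟩ | ⟨h1, h2⟩ <;> simp only at h1 h2 he <;> subst h1 <;>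
    rcases he with ⟨h3, h4⟩ | ⟨h3, h4⟩
  · simp [xb, xv, ucost, h3, h4, h2]
  · simp [xb, xv, ucost, h3, h4, h2]
    omega
  · simp [xb, xv, ucost, h3, h4, h2]
  · simp [xb, xv, ucost, h3, h4, h2]
    omega

theorem st_SPL2 (hDEG : ST_DEG) (hCNN : ST_CNN) (hCNN3 : ST_CNN3) (hPTY : ST_PTY) (hREL : ST_REL)
    (hCUT : ST_CUT) (hFRM : ST_FRM) (hFRP : ST_FRP) (hLIT : ST_LIT) (hCFL : ST_CFL)
    (hSBS : ST_SBS) (hCST : ST_CST) (hMRK : ST_MRK) (hCHS : Pool.Agent.Helper31.BC.ST_CHS) :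
    ST_SPL2 := by
  intro k q l N W n p hq hl hk hn hB hp hV hW
  set φ : CNF := ccF k q l with hφ
  set s : List Sub := subs φ with hs
  set M : ℕ := ccM k q l with hM
  set T : ℕ → Bool := tl (k * q) l with hT
  let σ0 : Fin k → Fin q := fun _ => ⟨0, hq⟩
  let χ0 : Fin (k * q) → Fin l := fun _ => ⟨0, hl⟩
  have hVT : VT M T := (hFRM k q l σ0 χ0).2.2.2
  have hrows : ∀ j i d, sg s j = some (i, d) → i < 2 * M + 1 := by
    intro j i d h
    exact spl_rows (hFRM k q l σ0 χ0).2.2.1 j i d h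
  have hzero : 0 < s.length → sg s 0 = none := spl_zero _
  have hmap : ∀ (σ : Fin k → Fin q) (χ : Fin (k * q) → Fin l),
      subs ((pcc σ χ).map Prod.fst) = s := fun σ χ => by rw [(hFRM k q l σ χ).1]
  have hch : ∀ (σ : Fin k → Fin q) (χ : Fin (k * q) → Fin l),
      Choice s (asg σ χ) (chf (pcc σ χ)) := by
    intro σ χ
    have h1 := hCHS (pcc σ χ) (hFRM k q l σ χ).2.1
    rw [hmap] at h1
    refine ⟨fun j hj => ?_, h1.1.one⟩
    obtain ⟨x, hx, y, hy, h2, h3⟩ := h1.2.2 j hj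
    refine ⟨y.1, h2, ?_⟩
    have h4 := h3 (asg σ χ)
    rw [hLIT k q l σ χ x hx y hy, beq_self_eq_true] at h4
    have h5 : (asg σ χ y.1 == decide (cnt s y.1 j % 2 = 0)) = true := h4
    exact beq_iff_eq.1 h5
  let HU : (Fin k → Fin q) → (Fin (k * q) → Fin l) → ℕ → ℕ → Bool := fun σ χ =>
    hNU s M T (asg σ χ) (chf (pcc σ χ))
  let VU : (Fin k → Fin q) → (Fin (k * q) → Fin l) → ℕ → ℕ → Bool := fun σ χ =>
    vNU s M T (asg σ χ) (chf (pcc σ χ))
  have hBV : ∀ σ χ, BV (hN s M T) (vN s M T) (HU σ χ) (VU σ χ) := fun σ χ =>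
    hDEG s M T _ _ hrows hzero hVT (hch σ χ)
  let X : (Fin k → Fin q) → (Fin (k * q) → Fin l) → Pair n → ℤ := fun σ χ =>
    xb (HU σ χ) (VU σ χ) p
  have hrel : ∀ (σ : Fin k → Fin q) (χ : Fin (k * q) → Fin l),
      TwoFactor (fun i => pert (dbl (hN s M T)) (dbl (vN s M T)) (scale n (2 * N) 4 W : ℕ) (p i))
        ((n * scale n (2 * N) 4 W + (2 * W + 1) : ℕ) : ℝ) (X σ χ) := fun σ χ =>
    hREL n N W _ _ _ _ p hB (hCST s M T) (hBV σ χ) hn hp hV hW
  -- the parties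
  have hpar := fun x y => hPTY s M T (prw (k * q) l) (pco k q l)
    (fun j i d h => (hFRP k q l σ0 σ0 χ0 χ0).2.2.2.2 j i d h) x y
  have hHU : ∀ x y, (∀ σ χ χ', HU σ χ x y = HU σ χ' x y) ∨
      (∀ σ σ' χ, HU σ χ x y = HU σ' χ x y) := by
    intro x y
    obtain ⟨b, hb⟩ := (hpar x y).1
    cases b
    · right
      intro σ σ' χ
      exact hb _ _ _ _ (hFRP k q l σ σ' χ χ).2.1 (hFRP k q l σ σ' χ χ).2.2.2.1
    · left
      intro σ χ χ'
      exact hb _ _ _ _ (hFRP k q l σ σ χ χ').1 (hFRP k q l σ σ χ χ').2.2.1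
  have hVU : ∀ x y, (∀ σ χ χ', VU σ χ x y = VU σ χ' x y) ∨
      (∀ σ σ' χ, VU σ χ x y = VU σ' χ x y) := by
    intro x y
    obtain ⟨b, hb⟩ := (hpar x y).2
    cases b
    · right
      intro σ σ' χ
      exact hb _ _ _ _ (hFRP k q l σ σ' χ χ).2.1 (hFRP k q l σ σ' χ χ).2.2.2.1
    · left
      intro σ χ χ'
      exact hb _ _ _ _ (hFRP k q l σ σ χ χ').1 (hFRP k q l σ σ χ χ').2.2.1
  have hX : ∀ e, (∀ σ χ χ', X σ χ e = X σ χ' e) ∨ (∀ σ σ' χ, X σ χ e = X σ' χ e) := by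
    intro e
    simp only [X, xb, xv, ucost]
    split_ifs
    · exact (hHU _ _).imp (fun h σ χ χ' => by rw [h σ χ χ']) (fun h σ σ' χ => by rw [h σ σ' χ])
    · exact (hHU _ _).imp (fun h σ χ χ' => by rw [h σ χ χ']) (fun h σ σ' χ => by rw [h σ σ' χ])
    · exact (hVU _ _).imp (fun h σ χ χ' => by rw [h σ χ χ']) (fun h σ σ' χ => by rw [h σ σ' χ])
    · exact (hVU _ _).imp (fun h σ χ χ' => by rw [h σ χ χ']) (fun h σ σ' χ => by rw [h σ σ' χ])
    · exact Or.inl fun _ _ _ => rfl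
  have hfg : ∀ e, ∃ fg : ((Fin k → Fin q) → ℤ) × ((Fin (k * q) → Fin l) → ℤ),
      ∀ σ χ, X σ χ e = fg.1 σ + fg.2 χ := by
    intro e
    obtain ⟨f, g, h⟩ := spl_sepe (fun σ χ => X σ χ e) σ0 χ0 (hX e)
    exact ⟨(f, g), h⟩
  choose FG hFG using hfg
  have hXfg : ∀ σ χ, (fun e => (FG e).1 σ + (FG e).2 χ) = X σ χ := by
    intro σ χ
    funext e
    exact (hFG e σ χ).symm
  -- the edges which are always used
  obtain ⟨hmc, hmu, hmd⟩ := hMRK s M T hVT
  have hedge : ∀ m : {m // m ∈ marks s M T}, ∃ e : Pair n,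
      ((p e.1.1 = m.1.1 ∧ p e.1.2 = m.1.2) ∨ (p e.1.1 = m.1.2 ∧ p e.1.2 = m.1.1)) ∧
      ∀ σ χ, X σ χ e = 1 := by
    rintro ⟨m, hm⟩
    obtain ⟨hv1, hv2, hu⟩ := hmu m hm
    obtain ⟨i1, hi1⟩ := (hV _).1 hv1
    obtain ⟨i2, hi2⟩ := (hV _).1 hv2
    have hu' : ∀ σ χ, (m.2 = (m.1.1 + 1, m.1.2) ∧ HU σ χ m.1.1 m.1.2 = true) ∨
        (m.2 = (m.1.1, m.1.2 + 1) ∧ VU σ χ m.1.1 m.1.2 = true) := fun σ χ =>
      hu.imp (fun h => ⟨h.1, h.2 _ _⟩) (fun h => ⟨h.1, h.2 _ _⟩)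
    have hne : i1 ≠ i2 := by
      rintro rfl
      rw [hi1] at hi2
      rcases hu with ⟨h, -⟩ | ⟨h, -⟩
      · have h5 := congrArg Prod.fst h
        rw [← hi2] at h5
        simp at h5
      · have h5 := congrArg Prod.snd h
        rw [← hi2] at h5
        simp at h5
    rcases lt_or_gt_of_ne hne with h | h
    · exact ⟨⟨(i1, i2), h⟩, Or.inl ⟨hi1, hi2⟩, fun σ χ =>
        spl2_used _ _ p ⟨(i1, i2), h⟩ m (Or.inl ⟨hi1, hi2⟩) (hu' σ χ)⟩
    · exact ⟨⟨(i2, i1), h⟩, Or.inr ⟨hi2, hi1⟩, fun σ χ =>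
        spl2_used _ _ p ⟨(i2, i1), h⟩ m (Or.inr ⟨hi2, hi1⟩) (hu' σ χ)⟩
  choose ed hed hed1 using hedge
  have hm0 : (((1, 3), (2, 3)) : Pt × Pt) ∈ marks s M T := Finset.mem_insert_self _ _
  refine ⟨fun σ e => (FG e).1 σ, fun χ e => (FG e).2 χ, (marks s M T).attach.image ed,
    ⟨fun σ χ => ?_, ?_⟩, ?_, ?_, ?_, ?_, ?_⟩
  · rw [hXfg]
    exact hrel σ χ
  · intro S hS hS'
    -- the test vertex
    have hb : ∃ b, Vert (hN s M T) (vN s M T) b ∧
        ¬ ((∃ i ∈ S, p i = b) ↔ (∃ i ∈ S, p i = ((1, 3) : Pt))) := by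
      by_cases h13 : ∃ i ∈ S, p i = ((1, 3) : Pt)
      · have h1 : ∃ j, j ∉ S := by
          by_contra hcon
          push Not at hcon
          exact hS' (Finset.eq_univ_iff_forall.2 hcon)
        obtain ⟨j, hj⟩ := h1
        refine ⟨p j, (hV _).2 ⟨j, rfl⟩, fun h => ?_⟩
        obtain ⟨i, hi, h2⟩ := h.2 h13
        rw [hp h2] at hi
        exact hj hi
      · obtain ⟨j, hj⟩ := hS
        exact ⟨p j, (hV _).2 ⟨j, rfl⟩, fun h => h13 (h.1 ⟨j, hj, rfl⟩)⟩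
    obtain ⟨b, hbV, hb⟩ := hb
    have key : ∀ σ χ, ¬ (subtour S).Holds (fun e => (FG e).1 σ + (FG e).2 χ) →
        ∃ i, T i = true ∧ asg σ χ i = true ∧ asg σ χ (i + 1) = true ∧ 4 + 6 * i ≤ b.2 ∧
          b.2 < 16 + 6 * i := by
      intro σ χ hno
      rw [hXfg] at hno
      have h1 := hCUT n N _ _ _ _ p hB (hBV σ χ) hp hV S hno
      have h2 := hCNN s M T _ _ hrows hzero hVT (hch σ χ) _ h1 b hbV
      rcases h2 with h2 | ⟨i, h3, h4, h5, h6, h7⟩
      · exact absurd h2 hb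
      · rw [hs, hSBS] at h4 h5
        exact ⟨i, h3, h4, h5, h6, h7⟩
    by_cases hex : ∃ i, T i = true ∧ 4 + 6 * i ≤ b.2 ∧ b.2 < 16 + 6 * i
    · obtain ⟨i, hTi, h1, h2⟩ := hex
      obtain ⟨u, v, huv, h3⟩ := hCFL k q l i hTi
      refine ⟨⟨(u, v), huv⟩, fun σ χ hno => ?_⟩
      obtain ⟨i', hTi', h4, h5, h6, h7⟩ := key σ χ hno
      have hii : i' = i := by
        by_contra hne'
        rcases lt_or_gt_of_ne hne' with h | h
        · have h8 : i = i' + 1 := by omega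
          have h9 := hVT.sep i' hTi'
          rw [← h8, hTi] at h9
          exact absurd h9 (by simp)
        · have h8 : i' = i + 1 := by omega
          have h9 := hVT.sep i hTi
          rw [← h8, hTi'] at h9
          exact absurd h9 (by simp)
      subst hii
      obtain ⟨h8, h9, h10⟩ := h3 σ χ h4 h5
      constructor
      · simp only [clq, decide_eq_true_iff]
        exact ⟨h8, h9⟩
      · simp only [mpt, decide_eq_false_iff_not, not_not]
        exact h10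
    · have h2 : 2 ≤ k * q := by nlinarith
      refine ⟨⟨(⟨0, by omega⟩, ⟨1, by omega⟩), by simp [Fin.lt_def]⟩, fun σ χ hno => ?_⟩
      obtain ⟨i, h3, _, _, h4, h5⟩ := key σ χ hno
      exact absurd ⟨i, h3, h4, h5⟩ hex
  · exact ⟨ed ⟨_, hm0⟩, Finset.mem_image_of_mem _ (Finset.mem_attach _ _)⟩
  · refine Finset.card_image_le.trans ?_
    rw [Finset.card_attach]
    exact hmc
  · intro e he e' he' h
    obtain ⟨m, -, rfl⟩ := Finset.mem_image.1 he
    obtain ⟨m', -, rfl⟩ := Finset.mem_image.1 he'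
    have h1 : p (ed m).1.1 = p (ed m').1.1 := by rw [h]
    have h2 : m.1 = m'.1 := by
      apply hmd m.1 m.2 m'.1 m'.2
      rcases hed m with ⟨h3, -⟩ | ⟨h3, -⟩ <;> rcases hed m' with ⟨h4, -⟩ | ⟨h4, -⟩ <;>
        rw [h3, h4] at h1
      · exact Or.inl h1
      · exact Or.inr (Or.inl h1)
      · exact Or.inr (Or.inr (Or.inl h1))
      · exact Or.inr (Or.inr (Or.inr h1))
    have h3 : m = m' := Subtype.ext h2
    rw [h3]
  · intro e he σ χ
    obtain ⟨m, -, rfl⟩ := Finset.mem_image.1 he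
    have h1 := hed1 m σ χ
    rw [hFG] at h1
    exact h1
  · intro σ χ S hS hS' hno
    have hno' : ¬ (subtour S).Holds (X σ χ) := by
      have h1 := hno
      rw [show (fun e => (fun (σ : Fin k → Fin q) (e : Pair n) => (FG e).1 σ) σ e +
        (fun (χ : Fin (k * q) → Fin l) (e : Pair n) => (FG e).2 χ) χ e) = X σ χ from
        hXfg σ χ] at h1
      exact h1
    have h1 := hCUT n N _ _ _ _ p hB (hBV σ χ) hp hV S hno'
    have hmem : ∀ m : {m // m ∈ marks s M T}, (∃ i ∈ S, p i = m.1.1) → (ed m).1.1 ∈ S := by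
      intro m hS1
      have hS2 : ∃ i ∈ S, p i = m.1.2 := by
        rcases (hmu m.1 m.2).2.2 with ⟨h2, h3⟩ | ⟨h2, h3⟩
        · have h4 := (h1.1 _ _ (h3 (asg σ χ) (chf (pcc σ χ)))).1 hS1
          rw [← h2] at h4
          exact h4
        · have h4 := (h1.2 _ _ (h3 (asg σ χ) (chf (pcc σ χ)))).1 hS1
          rw [← h2] at h4
          exact h4
      rcases hed m with ⟨h2, -⟩ | ⟨h2, -⟩
      · obtain ⟨i, hi, h3⟩ := hS1
        rw [← h2] at h3
        rw [← hp h3]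
        exact hi
      · obtain ⟨i, hi, h3⟩ := hS2
        rw [← h2] at h3
        rw [← hp h3]
        exact hi
    have hfin : ∀ m : {m // m ∈ marks s M T}, (∃ i ∈ S, p i = m.1.1) →
        ∃ e ∈ (marks s M T).attach.image ed, e.1.1 ∈ S := fun m hS1 =>
      ⟨ed m, Finset.mem_image_of_mem _ (Finset.mem_attach _ _), hmem m hS1⟩
    obtain ⟨j, hj⟩ := hS
    have hSb : ∃ i ∈ S, p i = p j := ⟨j, hj, rfl⟩
    rcases hCNN3 s M T _ _ hrows hzero hVT (hch σ χ) _ h1 (p j) ((hV _).2 ⟨j, rfl⟩) with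
      h2 | ⟨i, hTi, h2 | h2⟩
    · exact hfin ⟨_, hm0⟩ (h2.1 hSb)
    · have hmi : (((8 + 4 * s.length, 12 + 6 * i), (8 + 4 * s.length, 13 + 6 * i)) : Pt × Pt) ∈
          marks s M T := by
        refine Finset.mem_insert_of_mem (Finset.mem_biUnion.2 ⟨i, ?_, ?_⟩)
        · rw [Finset.mem_filter, Finset.mem_range]
          have := hVT.lt i hTi
          exact ⟨by omega, hTi⟩
        · exact Finset.mem_insert_self _ _
      exact hfin ⟨_, hmi⟩ (h2.1 hSb)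
    · have hmi : (((14 + 4 * s.length, 13 + 6 * i), (15 + 4 * s.length, 13 + 6 * i)) : Pt × Pt) ∈
          marks s M T := by
        refine Finset.mem_insert_of_mem (Finset.mem_biUnion.2 ⟨i, ?_, ?_⟩)
        · rw [Finset.mem_filter, Finset.mem_range]
          have := hVT.lt i hTi
          exact ⟨by omega, hTi⟩
        · exact Finset.mem_insert_of_mem (Finset.mem_singleton_self _)
      exact hfin ⟨_, hmi⟩ (h2.1 hSb)

end Pool.Agent.Helper96.SE
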